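import Pool.Agent.Helper181_LK.LowerAs

/-! A lower bound for all `k`: `f(n; H_k) ≥ (√(k - 1) / 2 - o(1)) n^{3/2}`. -/

set_option autoImplicit false

namespace Pool.Agent.Results.MP_bd932b_co.LowerAllK

open Filter Topology Pool.Agent.Helper181_LK

/-- For every `k ≥ 2` and every `c < √(k - 1) / 2`, for all large `n` the least number of edges
forcing a copy of `H_k` in a graph with `n` vertices exceeds `c n^{3/2}`. -/
theorem result :
    ∀ k : ℕ, 2 ≤ k → ∀ c : ℝ, c < Real.sqrt ((k : ℝ) - 1) / 2 → ∀ᶠ n : ℕ in Filter.atTop,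
      c * (n : ℝ) ^ ((3 : ℝ) / 2) <
      (↑(SimpleGraph.extremalNumber n
          (SimpleGraph.fromRel
            (fun a b : Unit ⊕ (Fin k ⊕ {p : Finset (Fin k) // p.card = 2}) =>
              (a = Sum.inl () ∧ ∃ i : Fin k, b = Sum.inr (Sum.inl i)) ∨
              (∃ (i : Fin k) (p : {p : Finset (Fin k) // p.card = 2}),
                a = Sum.inr (Sum.inl i) ∧ b = Sum.inr (Sum.inr p) ∧ i ∈ p.1)))) : ℝ) + 1 := by
  intro k hk c hc
  obtain ⟨s, rfl⟩ : ∃ s, k = s + 1 := ⟨k - 1, by omega⟩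
  have hs : 1 ≤ s := by omega
  have hc' : c < Real.sqrt (s : ℝ) / 2 := by
    have : (((s + 1 : ℕ) : ℝ) - 1) = s := by push_cast; ring
    rwa [this] at hc
  filter_upwards [lower_as s hs hc'] with n hn
  change c * (n : ℝ) ^ ((3 : ℝ) / 2) < (SimpleGraph.extremalNumber n (LK (s + 1)) : ℝ) + 1
  linarith

end Pool.Agent.Results.MP_bd932b_co.LowerAllK
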