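import Pool.Agent.Helper181_LK.LowerAs

/-! The sharp constant for `H_3` (the cube minus a vertex): `f(n; H_3) / n^{3/2} → 1 / √2`. -/

set_option autoImplicit false

namespace Pool.Agent.Results.MP_bd932b_co.SharpK3

open Filter Topology Pool.Agent.Helper181_LK

/-- The least number of edges forcing a copy of `H_3` in a graph with `n` vertices, divided by
`n^{3/2}`, tends to `1 / √2`. -/
theorem result :
    Filter.Tendsto (fun n : ℕ => ((↑(SimpleGraph.extremalNumber n
          (SimpleGraph.fromRel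
            (fun a b : Unit ⊕ (Fin 3 ⊕ {p : Finset (Fin 3) // p.card = 2}) =>
              (a = Sum.inl () ∧ ∃ i : Fin 3, b = Sum.inr (Sum.inl i)) ∨
              (∃ (i : Fin 3) (p : {p : Finset (Fin 3) // p.card = 2}),
                a = Sum.inr (Sum.inl i) ∧ b = Sum.inr (Sum.inr p) ∧ i ∈ p.1)))) : ℝ) + 1)
        / (n : ℝ) ^ ((3 : ℝ) / 2)) Filter.atTop (nhds (1 / Real.sqrt 2)) := by
  change Tendsto (fun n : ℕ => ((SimpleGraph.extremalNumber n (LK 3) : ℝ) + 1)
        / (n : ℝ) ^ ((3 : ℝ) / 2)) atTop (𝓝 (1 / Real.sqrt 2))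
  have hs2 : 0 < Real.sqrt 2 := Real.sqrt_pos.2 (by norm_num)
  have hlow : Real.sqrt ((2 : ℕ) : ℝ) / 2 = 1 / Real.sqrt 2 := by
    have h : Real.sqrt 2 * Real.sqrt 2 = 2 := Real.mul_self_sqrt (by norm_num)
    push_cast
    rw [div_eq_div_iff (by norm_num) hs2.ne']
    linarith
  have hpow : Tendsto (fun n : ℕ => (n : ℝ) ^ ((3 : ℝ) / 2)) atTop atTop :=
    (tendsto_rpow_atTop (by norm_num)).comp tendsto_natCast_atTop_atTop
  rw [tendsto_order]
  constructor
  · intro a ha
    have h1 := lower_as 2 (by norm_num) (c := (a + 1 / Real.sqrt 2) / 2) (by rw [hlow]; linarith)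
    filter_upwards [h1, hpow.eventually_gt_atTop 0] with n hn hn0
    rw [lt_div_iff₀ hn0]
    have h2 : a * (n : ℝ) ^ ((3 : ℝ) / 2) ≤ (a + 1 / Real.sqrt 2) / 2 * (n : ℝ) ^ ((3 : ℝ) / 2) :=
      mul_le_mul_of_nonneg_right (by linarith) hn0.le
    linarith
  · intro a ha
    have h1 := upper3 (c := (a + 1 / Real.sqrt 2) / 2) (by linarith)
    have hd : 0 < (a - 1 / Real.sqrt 2) / 2 := by linarith
    filter_upwards [h1, hpow.eventually_gt_atTop (1 / ((a - 1 / Real.sqrt 2) / 2)),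
      hpow.eventually_gt_atTop 0] with n hn hn1 hn0
    rw [div_lt_iff₀ hn0]
    rw [div_lt_iff₀ hd] at hn1
    linarith

end Pool.Agent.Results.MP_bd932b_co.SharpK3
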